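import Pool.Agent.U308.TL.Levels
import Pool.Agent.TH872.GQ.Dual

set_option autoImplicit false

/-! Absolute values over all the moduli, averages over arbitrary integers near the integers composed of few primes. -/

namespace Pool.Agent.U331.SR
open Finset
open Pool.Agent.H373R2.T7
open Pool.Agent.W93.LV
open Pool.Agent.TH212.EH (W WW)
open Pool.Agent.TH872.GQ (Hyp)
open Pool.Agent.U308.TL (Cond2 sm_levels2)
open Pool.Agent.N469.SM (SS mem_SS one_mem_SS card_SS_pos)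

/-- the weights may be changed at `0` -/
lemma W_zero (lam : ℕ → ℝ) (Q x a : ℕ) : W (fun m => if m = 0 then 0 else lam m) Q x a = W lam Q x a := by
  unfold W
  refine sum_congr rfl fun q hq => ?_
  rw [mem_filter, mem_Icc] at hq
  have h0 : q ≠ 0 := by omega
  simp only [h0, if_false]

/-- the arithmetic of the logarithms -/
lemma logs : ∃ N₀ : ℕ, ∀ N, N₀ ≤ N → ∀ D m : ℕ, 2 * m ≤ D → ∀ X Q : ℕ, (Q : ℝ) * Real.exp (D * Real.log (Real.log N) ^ 2) ≤ X →
    (16 : ℝ) ≤ Real.log N ∧ (⌊Real.log (N : ℝ)⌋₊ : ℝ) ≤ Real.log N ∧ Real.log N ≤ (⌊Real.log (N : ℝ)⌋₊ : ℝ) ^ 2 ∧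
      2 * Real.log N ≤ (⌊Real.log (N : ℝ)⌋₊ : ℝ) ^ 2 ∧
      (Q : ℝ) * (⌊Real.log (N : ℝ)⌋₊ : ℝ) ^ m ≤ X := by
  obtain ⟨N4, h4⟩ := ev_L' ((16 : ℕ) : ℝ)
  refine ⟨N4 + 3, fun N hN D m hD X Q hQ => ?_⟩
  have hL4 := h4 N (by omega)
  have hL1 : (16 : ℝ) ≤ Real.log N := by exact_mod_cast hL4
  have hL0 : 0 < Real.log N := by linarith
  have f1 : (⌊Real.log (N : ℝ)⌋₊ : ℝ) ≤ Real.log N := Nat.floor_le hL0.le
  have f2 : Real.log N < (⌊Real.log (N : ℝ)⌋₊ : ℝ) + 1 := Nat.lt_floor_add_one _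
  have f3 : 15 ≤ (⌊Real.log (N : ℝ)⌋₊ : ℝ) := by linarith
  have hll : 1 ≤ Real.log (Real.log N) := by
    rw [Real.le_log_iff_exp_le hL0]
    have := Real.exp_one_lt_d9
    linarith
  refine ⟨hL1, f1, by nlinarith, by nlinarith, ?_⟩
  refine le_trans ?_ hQ
  apply mul_le_mul_of_nonneg_left _ (Nat.cast_nonneg _)
  calc (⌊Real.log (N : ℝ)⌋₊ : ℝ) ^ m ≤ Real.log N ^ m := pow_le_pow_left₀ (by linarith) f1 m
    _ = Real.exp (m * Real.log (Real.log N)) := by rw [Real.exp_nat_mul, Real.exp_log hL0]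
    _ ≤ _ := by
        apply Real.exp_le_exp.2
        have h1 : (2 : ℝ) * m ≤ D := by exact_mod_cast hD
        have h2 : Real.log (Real.log N) ≤ Real.log (Real.log N) ^ 2 := by nlinarith
        have h3 : (0 : ℝ) ≤ m := Nat.cast_nonneg m
        nlinarith [mul_nonneg h3 (sub_nonneg.2 h2), sq_nonneg (Real.log (Real.log N))]

theorem core (κ : ℤ) (hκ : κ ≠ 0) (Kp B A T U Wd : ℕ) (δ : ℝ) (hδ : 0 < δ) : ∃ D N₀ : ℕ, ∀ N, N₀ ≤ N → ∀ P y, Cond2 δ Kp N P y →
    ∀ cc : ℤ, |cc| ≤ B * N → ∀ X : ℕ, (B + κ.natAbs + 1) * N ≤ X → (X : ℝ) ≤ N * Real.log X ^ Wd →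
    ∀ Q : ℕ, (Q : ℝ) * Real.exp (D * Real.log (Real.log N) ^ 2) ≤ X → ∀ (a : ℕ → ℕ) (w : ℕ → ℝ) (x : ℕ → ℕ),
    (∀ v, |w v| ≤ Real.log N ^ T) →
    (∀ v ∈ SS P N, w v ≠ 0 → 0 < a v ∧ |((a v - (cc + κ * v) : ℤ) : ℝ)| ≤ Real.log N ^ A) → (∀ m, x m ≤ X) →
    ∑ m ∈ Icc 1 Q, (m.divisors.card : ℝ) ^ T * |∑ v ∈ (SS P N).filter (fun v => (a v).Coprime m),
      w v * (Fu (fun n => ArithmeticFunction.vonMangoldt n) (x m) m (a v) - (x m : ℝ) / Nat.totient m)| ≤
      ((SS P N).card : ℝ) * (X / Real.log N ^ U) := by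
  classical
  obtain ⟨T₁, U₁, m₀, k0, habs⟩ := Pool.Agent.TH872.GQ.absolute (2 * T) (2 * U)
  obtain ⟨D₁, N1, hlev⟩ := sm_levels2 κ hκ Kp B A T₁ U₁ Wd δ hδ
  obtain ⟨N2, hlogs⟩ := logs
  obtain ⟨N3, hN3⟩ := ev_L' ((k0 + 1 : ℕ) : ℝ)
  obtain ⟨N4, hlevX⟩ := Pool.Agent.N469.TL.level Wd
  refine ⟨D₁ + 2 * m₀, N1 + N2 + N3 + N4 + 3, fun N hN P y hP cc hcc X hX1 hX2 Q hQ a w x hw ha hx => ?_⟩
  obtain ⟨l1, l2, l3, l4, l5⟩ := hlogs N (by omega) (D₁ + 2 * m₀) m₀ (by omega) X Q hQ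
  have hL0 : 0 < Real.log N := by linarith
  obtain ⟨k, hk⟩ : ∃ k, k = ⌊Real.log (N : ℝ)⌋₊ := ⟨_, rfl⟩
  rw [← hk] at l2 l3 l4 l5
  have hk0 : k0 ≤ k := by
    have h1 := hN3 N (by omega)
    rw [hk]
    apply Nat.le_floor
    have h2 : ((k0 + 1 : ℕ) : ℝ) ≤ Real.log N := by exact_mod_cast h1
    push_cast at h2
    linarith
  have hkr1 : (1 : ℝ) ≤ k := by
    have h3 : (0 : ℝ) ≤ k := Nat.cast_nonneg k
    nlinarith
  have hNX : N ≤ X := le_trans (Nat.le_mul_of_pos_left _ (by omega)) hX1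
  have hNr : (0 : ℝ) < N := by exact_mod_cast (by omega : 0 < N)
  have hX0 : (0 : ℝ) < X := by exact_mod_cast (by omega : 0 < X)
  have hlX1 : Real.log N ≤ Real.log X := Real.log_le_log hNr (by exact_mod_cast hNX)
  have hlX2 : Real.log X ≤ 2 * Real.log N := (hlevX N (by omega) X hNX hX2).2.2.1
  obtain ⟨Ω, hΩ⟩ : ∃ Ω : Finset ℕ, Ω = (SS P N).filter (fun v => w v ≠ 0) := ⟨_, rfl⟩
  have hS0 : 0 < (SS P N).card := card_SS_pos P (by omega)
  have hSr : (0 : ℝ) < (SS P N).card := by exact_mod_cast hS0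
  have hΩS : Ω ⊆ SS P N := by rw [hΩ]; exact filter_subset _ _
  -- the hypothesis of the duality principle
  have hyp : Hyp k X X Q T₁ U₁ Ω (fun _ => 1 / ((SS P N).card : ℝ)) a := by
    intro lam hlam E hdec hE
    have hlam' : ∀ m, |(fun m : ℕ => if m = 0 then 0 else lam m) m| ≤ (m.divisors.card * Real.log N) ^ T₁ := by
      intro m
      simp only
      split_ifs with h0
      · rw [abs_zero]
        positivity
      · refine (hlam m).trans ?_
        apply pow_le_pow_left₀ (by linarith)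
        have h1 : (1 : ℝ) ≤ m.divisors.card := by
          have : 0 < m.divisors.card := card_pos.2 ⟨1, Nat.mem_divisors.2 ⟨one_dvd _, h0⟩⟩
          exact_mod_cast this
        nlinarith
    have h1 := hlev N (by omega) P y hP (fun v => v ∈ Ω ∧ E v) (fun v => inferInstance)
      ⟨cc, X, Q, 1, fun _ m => if m = 0 then 0 else lam m, fun _ _ => 0, hcc, hX1, hX2, by
        refine le_trans ?_ hQ
        apply mul_le_mul_of_nonneg_left _ (Nat.cast_nonneg _)
        apply Real.exp_le_exp.2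
        apply mul_le_mul_of_nonneg_right _ (sq_nonneg _)
        push_cast
        have : (0 : ℝ) ≤ m₀ := Nat.cast_nonneg _
        linarith, by
        push_cast
        exact one_le_pow₀ (by linarith), fun _ m => hlam' m, fun _ _ => Nat.zero_le _, by
        rintro v ⟨hvΩ, hvE⟩
        obtain ⟨x', hx'1, hx'2⟩ := hE v hvΩ hvE
        rw [hΩ, mem_filter] at hvΩ
        obtain ⟨g1, g2⟩ := ha v hvΩ.1 hvΩ.2
        have e0 : cc + κ * (v : ℤ) + ((a v : ℤ) - (cc + κ * v)) = a v := by ring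
        refine ⟨(a v : ℤ) - (cc + κ * v), g2, by rw [e0]; exact_mod_cast g1, 0, Nat.zero_lt_one, Or.inl ⟨x', hx'1, ?_⟩⟩
        rw [e0, Int.toNat_natCast, W_zero]
        refine lt_of_le_of_lt ?_ hx'2
        apply div_le_div_of_nonneg_left hX0.le (by positivity)
        exact pow_le_pow_left₀ (by linarith) l2 _⟩
    have h2 : ∑ v ∈ Ω, (if E v then 1 / ((SS P N).card : ℝ) else 0) ≤
        ∑ v ∈ SS P N, (if v ∈ Ω ∧ E v then 1 / ((SS P N).card : ℝ) else 0) := by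
      rw [← sum_filter, ← sum_filter]
      apply sum_le_sum_of_subset_of_nonneg
      · intro v hv
        rw [mem_filter] at hv ⊢
        exact ⟨hΩS hv.1, hv⟩
      · intro v _ _
        positivity
    refine h2.trans (h1.trans ?_)
    apply one_div_le_one_div_of_le (by positivity)
    exact pow_le_pow_left₀ (by linarith) l2 _
  have hmain := habs k hk0 X X Q le_rfl (by linarith) (by linarith) l5 ℕ Ω (fun _ => 1 / ((SS P N).card : ℝ))
    (fun _ _ => by positivity) (by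
      rw [sum_const, nsmul_eq_mul, mul_one_div, div_le_one hSr]
      exact_mod_cast card_le_card hΩS) a hyp w (fun v => by
      refine (hw v).trans ?_
      rw [pow_mul]
      exact pow_le_pow_left₀ hL0.le l3 _) x hx
  -- the conclusion
  have hterm : ∀ m ∈ Icc 1 Q, (m.divisors.card : ℝ) ^ T * |∑ v ∈ (SS P N).filter (fun v => (a v).Coprime m),
      w v * (Fu (fun n => ArithmeticFunction.vonMangoldt n) (x m) m (a v) - (x m : ℝ) / Nat.totient m)| ≤
      ((SS P N).card : ℝ) * ((m.divisors.card : ℝ) ^ (2 * T) * |∑ v ∈ Ω.filter (fun v => (a v).Coprime m), 1 / ((SS P N).card : ℝ) *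
        (w v * (Fu (fun n => ArithmeticFunction.vonMangoldt n) (x m) m (a v) - (x m : ℝ) / Nat.totient m))|) := by
    intro m hm
    rw [mem_Icc] at hm
    have h1 : (1 : ℝ) ≤ m.divisors.card := by
      have : 0 < m.divisors.card := card_pos.2 ⟨1, Nat.mem_divisors.2 ⟨one_dvd _, by omega⟩⟩
      exact_mod_cast this
    have h2 : ∑ v ∈ (SS P N).filter (fun v => (a v).Coprime m),
        w v * (Fu (fun n => ArithmeticFunction.vonMangoldt n) (x m) m (a v) - (x m : ℝ) / Nat.totient m) =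
        ∑ v ∈ Ω.filter (fun v => (a v).Coprime m),
        w v * (Fu (fun n => ArithmeticFunction.vonMangoldt n) (x m) m (a v) - (x m : ℝ) / Nat.totient m) := by
      symm
      apply sum_subset (filter_subset_filter _ hΩS)
      intro v hv hv'
      rw [mem_filter] at hv hv'
      have h3 : w v = 0 := by
        by_contra hne
        apply hv'
        refine ⟨?_, hv.2⟩
        rw [hΩ, mem_filter]
        exact ⟨hv.1, hne⟩
      rw [h3, zero_mul]
    rw [h2, ← mul_sum, abs_mul, abs_of_nonneg (by positivity : (0 : ℝ) ≤ 1 / ((SS P N).card : ℝ))]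
    have h4 : (m.divisors.card : ℝ) ^ T ≤ (m.divisors.card : ℝ) ^ (2 * T) := pow_le_pow_right₀ h1 (by omega)
    obtain ⟨Z, hZ⟩ : ∃ Z, Z = |∑ v ∈ Ω.filter (fun v => (a v).Coprime m),
        w v * (Fu (fun n => ArithmeticFunction.vonMangoldt n) (x m) m (a v) - (x m : ℝ) / Nat.totient m)| := ⟨_, rfl⟩
    rw [← hZ]
    have hZ0 : 0 ≤ Z := by rw [hZ]; exact abs_nonneg _
    have h5 : ((SS P N).card : ℝ) * ((m.divisors.card : ℝ) ^ (2 * T) * (1 / ((SS P N).card : ℝ) * Z)) = (m.divisors.card : ℝ) ^ (2 * T) * Z := by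
      field_simp
    rw [h5]
    exact mul_le_mul_of_nonneg_right h4 hZ0
  refine (sum_le_sum hterm).trans ?_
  rw [← mul_sum]
  apply mul_le_mul_of_nonneg_left _ hSr.le
  refine hmain.trans ?_
  apply div_le_div_of_nonneg_left hX0.le (by positivity)
  rw [pow_mul]
  exact pow_le_pow_left₀ hL0.le l3 _

end Pool.Agent.U331.SR
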